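import Mathlib
import Pool.Agent.W809.ZQ.Stm

/-! Project ZQ (helper809): closed subgroups of `U n` satisfy the descending chain condition. -/

set_option autoImplicit false

open Set Filter Topology

namespace Pool.Agent.W494.ZQ

open Pool.Agent.W809.ZQ

variable {n : ℕ}

/-- the group generated by the exponentials -/
noncomputable def E (N : Subgroup (U n)) : Subgroup (U n) :=
  Subgroup.closure {u : U n | ∃ X ∈ LL N, (u : Mt n) = NormedSpace.exp X}

theorem E_le (N : Subgroup (U n)) : E N ≤ N := by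
  unfold E
  rw [Subgroup.closure_le]
  rintro u ⟨X, hX, he⟩
  obtain ⟨v, hv, hve⟩ := hX 1
  rw [one_smul] at hve
  have : u = v := Subtype.ext (he.trans hve.symm)
  rw [this]
  exact hv

theorem E_LL (N : Subgroup (U n)) {X : Mt n} (hX : X ∈ LL N) : X ∈ LL (E N) := by
  intro t
  obtain ⟨u, _, he⟩ := hX t
  exact ⟨u, Subgroup.subset_closure ⟨t • X, LL_smul hX t, he⟩, he⟩

theorem E_congr {N N' : Subgroup (U n)} (h : LL N' = LL N) : E N' = E N := by
  unfold E
  rw [h]

theorem E_fin (hADD : S_ADD) (hLC : S_LC) (N : Subgroup (U n)) (hN : IsClosed (N : Set (U n))) :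
    (E N).relIndex N ≠ 0 := by
  set b := Module.finBasis ℝ (LS hADD N hN) with hb
  obtain ⟨O, hO, h⟩ := hLC n N hN _ (fun j => ((b j : LS hADD N hN) : Mt n))
    (fun j => (b j).2) (by
      intro X hX
      have h1 : (⟨X, hX⟩ : LS hADD N hN) ∈ Submodule.span ℝ (Set.range b) := by
        rw [b.span_eq]
        exact Submodule.mem_top
      have h2 := Submodule.mem_map_of_mem (f := (LS hADD N hN).subtype) h1
      rw [Submodule.map_span, ← Set.range_comp] at h2
      exact h2) 1 one_pos
  have hsub : ∀ g ∈ N, g ∈ O → g ∈ E N := by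
    intro g hg hgO
    obtain ⟨t, _, ht⟩ := h g hg hgO
    obtain ⟨u, hu, hue⟩ := PE_mem (C := E N) (fun j => E_LL N (b j).2) t
    have : g = u := Subtype.ext (ht.trans hue.symm)
    rw [this]
    exact hu
  haveI : CompactSpace N := isCompact_iff_compactSpace.1 hN.isCompact
  have hopen : IsOpen (((E N).subgroupOf N : Subgroup N) : Set N) := by
    apply Subgroup.isOpen_of_mem_nhds (g := 1)
    have h1 : (fun x : N => (x : U n)) ⁻¹' O ∈ 𝓝 (1 : N) :=
      continuous_subtype_val.continuousAt.preimage_mem_nhds hO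
    refine Filter.mem_of_superset h1 ?_
    intro x hx
    exact hsub x x.2 hx
  haveI := Subgroup.quotient_finite_of_isOpen _ hopen
  haveI := Subgroup.finiteIndex_of_finite_quotient (H := (E N).subgroupOf N)
  exact Subgroup.FiniteIndex.index_ne_zero

theorem span_LL (hADD : S_ADD) (N : Subgroup (U n)) (hN : IsClosed (N : Set (U n))) :
    Submodule.span ℝ (LL N) = LS hADD N hN := Submodule.span_eq (LS hADD N hN)

theorem dcc (hADD : S_ADD) (hLC : S_LC) : S_DCC := by
  intro n F hF hcl
  let f : Subgroup (U n) → ℕ ×ₗ ℕ := fun N =>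
    toLex (Module.finrank ℝ (Submodule.span ℝ (LL N)), (E N).relIndex N)
  obtain ⟨N, hNF, hmin⟩ := (InvImage.wf f (wellFounded_lt (α := ℕ ×ₗ ℕ))).has_min F hF
  refine ⟨N, hNF, fun N' hN'F hle => le_antisymm hle ?_⟩
  have h1 : ¬ f N' < f N := hmin N' hN'F
  rw [Prod.Lex.lt_iff] at h1
  push_neg at h1
  obtain ⟨hd, hr⟩ := h1
  have hN := hcl N hNF
  have hN' := hcl N' hN'F
  have hsp : Submodule.span ℝ (LL N') ≤ Submodule.span ℝ (LL N) :=
    Submodule.span_mono (LL_mono hle)
  have heq := Submodule.eq_of_le_of_finrank_le hsp hd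
  have hLL : LL N' = LL N := by
    rw [span_LL hADD N' hN', span_LL hADD N hN] at heq
    exact congrArg (fun S : Submodule ℝ (Mt n) => (S : Set (Mt n))) heq
  have hE : E N' = E N := E_congr hLL
  have hr' : (E N).relIndex N ≤ (E N').relIndex N' := by
    refine hr ?_
    show Module.finrank ℝ (Submodule.span ℝ (LL N')) = Module.finrank ℝ (Submodule.span ℝ (LL N))
    rw [hLL]
  rw [hE] at hr'
  have hmul := Subgroup.relIndex_mul_relIndex (E N) N' N (hE ▸ E_le N') hle
  have hne := E_fin hADD hLC N hN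
  rw [← Subgroup.relIndex_eq_one]
  have h0 : N'.relIndex N ≠ 0 := by
    intro h
    rw [h, mul_zero] at hmul
    exact hne hmul.symm
  have h0' : 0 < (E N).relIndex N' := by
    rcases Nat.eq_zero_or_pos ((E N).relIndex N') with h | h
    · rw [h, zero_mul] at hmul
      exact absurd hmul.symm hne
    · exact h
  by_contra hc
  have h2 : 2 ≤ N'.relIndex N := by omega
  have h3 := Nat.mul_le_mul_left ((E N).relIndex N') h2
  omega

end Pool.Agent.W494.ZQ
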